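import Pool.Agent.helper52.HY.Spec

/-!
# Project hy: module CLB (clean balls)
-/

set_option autoImplicit false

open Complex Metric Set Filter Topology MeasureTheory
open Pool.Agent.helper98.ILF Pool.Agent.helper16.Multibrot

noncomputable section

namespace HY

theorem CLB_zero_mem : (0 : ℂ) ∈ UD := by
  unfold UD
  rw [mem_ball, dist_self]
  exact one_pos

theorem CLB_orb {n : ℕ} {c : ℂ} {φ : ℂ → ℂ} {M : ℕ} {y : ℕ → ℂ} {j i : ℕ} (h : Orb n c φ M y j) (hi : i ≤ j) :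
    Orb n c φ M y i where
  mem := fun l hl => h.mem l (le_trans hl hi)
  stp := fun l hl => h.stp l (lt_of_lt_of_le hl hi)
  far := fun l hl => h.far l (lt_of_lt_of_le hl hi)

theorem CLB_num (n : ℕ) (M₀ : ℕ) : ∃ M : ℕ, M₀ ≤ M ∧ 3 / 4 ≤ (1 - (1 / 2 : ℝ) ^ M) ^ n ∧ 4 * (1 / 2 : ℝ) ^ M ≤ 1 / 2 := by
  have h0 : Tendsto (fun M : ℕ => (1 / 2 : ℝ) ^ M) atTop (𝓝 0) :=
    tendsto_pow_atTop_nhds_zero_of_lt_one (by norm_num) (by norm_num)
  have h1 : Tendsto (fun M : ℕ => (1 - (1 / 2 : ℝ) ^ M) ^ n) atTop (𝓝 ((1 - 0) ^ n)) :=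
    (tendsto_const_nhds.sub h0).pow n
  rw [sub_zero, one_pow] at h1
  have e1 : ∀ᶠ M : ℕ in atTop, 3 / 4 < (1 - (1 / 2 : ℝ) ^ M) ^ n := h1.eventually_const_lt (by norm_num)
  have e2 : ∀ᶠ M : ℕ in atTop, (1 / 2 : ℝ) ^ M < 1 / 8 := h0.eventually_lt_const (by norm_num)
  obtain ⟨M, hM⟩ := (e1.and (e2.and (eventually_ge_atTop M₀))).exists
  exact ⟨M, hM.2.2, hM.1.le, by linarith [hM.2.1]⟩

/-- The trivial family at the end of the orbit. -/
theorem CLB_start (hHDI : HDI_stmt) {n : ℕ} {c : ℂ} {φ : ℂ → ℂ} {l₀ : ℝ} {y : ℕ → ℂ} {j : ℕ} (hy : y j ∈ UD) :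
    Fam n c φ l₀ y j j (fun _ x => S (y j) (x / 16)) := by
  obtain ⟨h1, h2, -, h4⟩ := hHDI.2.2 (y j) hy
  refine ⟨le_refl j, ?_, ?_, ?_, ?_, ?_, ?_⟩
  · intro l _ _
    exact h1
  · intro l h3 h5
    have e : l = j := le_antisymm h5 h3
    rw [e]
    exact h2
  · intro x _
    rfl
  · intro l h3 h5
    omega
  · intro l h3 h5
    omega
  · intro l h3 h5 x hx
    have e : l = j := le_antisymm h5 h3
    rw [e]
    simpa using h4 x hx

theorem CLB (hFBD : FBD_stmt) (hFST : FST_stmt) (hFIT : FIT_stmt) (hSTO : STO_stmt) (hDLN : DLN_stmt) (hHDI : HDI_stmt)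
    (hMOB : MOB_stmt) : CLB_stmt := by
  classical
  intro n hn r hr
  obtain ⟨l₀, hl0, hl1, hS⟩ := hSTO
  obtain ⟨M₀, hM₀⟩ := hFBD n hn r hr l₀ hl0
  obtain ⟨M, hM, hM1, hM2⟩ := CLB_num n M₀
  refine ⟨M, ?_⟩
  intro c hc hdis V φ ψ b hSG y j
  induction j using Nat.strong_induction_on with
  | _ j ih =>
    intro hO i hij
    have hyj : y j ∈ UD := hO.mem j le_rfl
    have hex : ∃ i', i' ≤ j ∧ ∃ H, Fam n c φ l₀ y j i' H := ⟨j, le_rfl, _, CLB_start hHDI hyj⟩
    obtain ⟨i₀, ⟨hi₀, H, hH⟩, hmin⟩ : ∃ i₀, (i₀ ≤ j ∧ ∃ H, Fam n c φ l₀ y j i₀ H) ∧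
        ∀ i', i' < i₀ → ¬ (i' ≤ j ∧ ∃ H, Fam n c φ l₀ y j i' H) :=
      ⟨Nat.find hex, Nat.find_spec hex, fun i' hi' => Nat.find_min hex hi'⟩
    have hB : ∀ l, i₀ ≤ l → l ≤ j → ∀ x ∈ UD, hd (H l) x ≤ 1 / 4 :=
      hM₀ M hM c hc hdis V φ hSG.rm y j i₀ H hO hH
    rcases le_or_gt i₀ i with hcase | hcase
    · refine ⟨H i, hH.un i hcase hij, hH.val i hcase hij, ?_, ?_⟩
      · intro x hx
        rw [hFIT n c φ l₀ y j i₀ H hH i j hcase hij le_rfl x hx, hH.top x hx]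
      · intro x hx
        have hU := hH.un i hcase hij
        have h1 := hDLN (H i) (1 / 4) hU.dif hU.map (hB i hcase hij) x hx
        rw [hH.val i hcase hij] at h1
        have h2 : ‖x‖ < 1 := by
          unfold UD at hx
          rwa [mem_ball_zero_iff] at hx
        linarith
    · -- the stop
      obtain ⟨i', rfl⟩ : ∃ i', i₀ = i' + 1 := ⟨i₀ - 1, by omega⟩
      have hstop : hd (H (i' + 1)) 0 ≤ l₀ := by
        by_contra hcon
        rw [not_le] at hcon
        obtain ⟨H', hH'⟩ := hFST n c V φ ψ b hSG l₀ M y j i' H hM1 hM2 hO hH (hB (i' + 1) le_rfl hi₀) hcon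
        exact hmin i' (Nat.lt_succ_self i') ⟨by omega, H', hH'⟩
      have hlt : i' + 1 < j := by
        rcases lt_or_eq_of_le hi₀ with h | h
        · exact h
        · exfalso
          have h1 : hd (H (i' + 1)) 0 = 1 / 16 := by
            rw [h]
            have h3 : H j =ᶠ[𝓝 0] fun x => S (y j) (x / 16) := by
              have h4 : UD ∈ 𝓝 (0 : ℂ) := ball_mem_nhds 0 one_pos
              filter_upwards [h4] with x hx
              exact hH.top x hx
            have h5 := (hHDI.2.2 (y j) hyj).2.2.1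
            unfold hd at h5 ⊢
            rw [h3.deriv_eq, h3.eq_of_nhds]
            exact h5
          rw [h1] at hstop
          linarith
      have hU := hH.un (i' + 1) le_rfl hi₀
      have hval := hH.val (i' + 1) le_rfl hi₀
      have hst : ∀ x ∈ UD, ‖T (y (i' + 1)) (H (i' + 1) x)‖ ≤ 1 / 64 := by
        intro x hx
        have h1 := hS (H (i' + 1)) hU (hB (i' + 1) le_rfl hi₀) hstop x hx
        rwa [hval] at h1
      have hyi : y (i' + 1) ∈ UD := hO.mem _ hi₀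
      obtain ⟨hM3, hTa, -, hTd, -, hTi, -⟩ := hMOB (y (i' + 1)) hyi
      obtain ⟨K, hKU, hK0, hKr, hKb⟩ := ih (i' + 1) hlt (CLB_orb hO hi₀) i (by omega)
      have hin : ∀ x ∈ UD, 16 * T (y (i' + 1)) (H (i' + 1) x) ∈ UD := by
        intro x hx
        unfold UD
        rw [mem_ball_zero_iff, norm_mul]
        have h1 := hst x hx
        have h2 : ‖(16 : ℂ)‖ = 16 := by norm_num
        rw [h2]
        linarith
      refine ⟨fun x => K (16 * T (y (i' + 1)) (H (i' + 1) x)), ⟨?_, ?_, ?_⟩, ?_, ?_, ?_⟩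
      · have h1 : DifferentiableOn ℂ (fun x => 16 * T (y (i' + 1)) (H (i' + 1) x)) UD :=
          (DifferentiableOn.comp hTd hU.dif hU.map).const_mul 16
        exact hKU.dif.comp h1 hin
      · intro x hx x' hx' hxx
        have h1 := hKU.inj (hin x hx) (hin x' hx') hxx
        have h2 : T (y (i' + 1)) (H (i' + 1) x) = T (y (i' + 1)) (H (i' + 1) x') :=
          mul_left_cancel₀ (by norm_num) h1
        exact hU.inj hx hx' (hTi (hU.map hx) (hU.map hx') h2)
      · intro x hx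
        exact hKU.map (hin x hx)
      · show K (16 * T (y (i' + 1)) (H (i' + 1) 0)) = y i
        rw [hval, hTa, mul_zero, hK0]
      · intro x hx
        show (fz n c)^[j - i] (φ (K (16 * T (y (i' + 1)) (H (i' + 1) x)))) = φ (S (y j) (x / 16))
        have e : j - i = (j - (i' + 1)) + ((i' + 1) - i) := by omega
        rw [e, Function.iterate_add_apply, hKr _ (hin x hx)]
        have e2 : 16 * T (y (i' + 1)) (H (i' + 1) x) / 16 = T (y (i' + 1)) (H (i' + 1) x) := by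
          rw [mul_comm]
          exact mul_div_cancel_right₀ _ (by norm_num)
        rw [e2, (hM3 (H (i' + 1) x) (hU.map hx)).2.2.1]
        rw [hFIT n c φ l₀ y j (i' + 1) H hH (i' + 1) j le_rfl hi₀ le_rfl x hx, hH.top x hx]
      · intro x hx
        exact hKb _ (hin x hx)

end HY
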